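import Pool.Agent.R333.BR.Ord
import Pool.Agent.R333.BR.Fam

/-!
# The Birch–Swinnerton-Dyer equality over number fields of large degree

`E` is an elliptic curve over a number field `K`.  Let `m, n` be positive integers and `d = gcd(m, n)`.
There are finitely many finite extensions `F_i / K` of degree divisible by `m` or by `n`, and integers
`e_i`, all independent of `E`, such that `d · rk E(K) = ∑ e_i rk E(F_i)` and
`d · ord_{s=1} L(E/K, s) = ∑ e_i ord_{s=1} L(E/F_i, s)`.  So the equality of the order and the rank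
descends from the `F_i` to `K`, and the conjecture over number fields of degree divisible by `n`
implies the conjecture over all number fields.

Nothing is assumed about `E` or `K`.
-/

set_option autoImplicit false

namespace Pool.Agent.Results.MP_cd906c_nt.RankDegreeDescent

open NumberField IsDedekindDomain

/-- `V v` is, for every prime `v`, an integral model of `E` with discriminant minimal at `v`. -/
def MinimalModels {K : Type} [Field K] [NumberField K] (E : WeierstrassCurve K)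
    (V : HeightOneSpectrum (𝓞 K) → WeierstrassCurve (𝓞 K)) : Prop :=
  ∀ v : HeightOneSpectrum (𝓞 K),
    (∃ C : WeierstrassCurve.VariableChange K, C • (V v).map (algebraMap (𝓞 K) K) = E) ∧
    ∀ W : WeierstrassCurve (𝓞 K),
      (∃ C : WeierstrassCurve.VariableChange K, C • W.map (algebraMap (𝓞 K) K) = E) →
        ∀ n : ℕ, (V v).Δ ∈ v.asIdeal ^ n → W.Δ ∈ v.asIdeal ^ n

open Classical in
/-- The Euler product of `L(E/K, s)` over all primes `v` of `K`, computed from the reductions of the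
models `V v`: `a_v` is `q_v` minus the number of affine points of the reduction, at all primes. -/
noncomputable def LSeries {K : Type} [Field K] [NumberField K]
    (V : HeightOneSpectrum (𝓞 K) → WeierstrassCurve (𝓞 K)) (s : ℂ) : ℂ :=
  ∏' v : HeightOneSpectrum (𝓞 K),
    (1 - ((Ideal.absNorm v.asIdeal : ℂ)
          - (Nat.card {xy : (𝓞 K ⧸ v.asIdeal) × (𝓞 K ⧸ v.asIdeal) //
              ((V v).map (Ideal.Quotient.mk v.asIdeal)).toAffine.Equation xy.1 xy.2} : ℂ))
          * (Ideal.absNorm v.asIdeal : ℂ) ^ (-s)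
      + (if (V v).Δ ∈ v.asIdeal then 0 else (Ideal.absNorm v.asIdeal : ℂ))
          * (Ideal.absNorm v.asIdeal : ℂ) ^ (-2 * s))⁻¹

/-- `Λ` is a meromorphic continuation of `L(E/K, s)` to the set `U` of complex numbers. -/
def IsContinuation {K : Type} [Field K] [NumberField K] (E : WeierstrassCurve K) (U : Set ℂ)
    (Λ : ℂ → ℂ) : Prop :=
  MeromorphicOn Λ U ∧
    ∃ V : HeightOneSpectrum (𝓞 K) → WeierstrassCurve (𝓞 K), MinimalModels E V ∧
      ∀ s : ℂ, 3 / 2 < s.re → Λ s = LSeries V s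

/-- `U` is a connected set that contains the half-plane `Re s > 3/2` and the point `s = 1`. -/
def Region (U : Set ℂ) : Prop :=
  IsPreconnected U ∧ (∀ s : ℂ, 3 / 2 < s.re → s ∈ U) ∧ (1 : ℂ) ∈ U

open Classical in
/-- The rank of the group `E(K)` is `r`. -/
def HasRank {K : Type} [Field K] (E : WeierstrassCurve K) (r : ℕ) : Prop :=
  Module.rank ℤ E.toAffine.Point = r

/-- `L(E/K, s)` has a meromorphic continuation to `U`, and the order of the continuation at `s = 1`
is `k`. -/
def HasOrder {K : Type} [Field K] [NumberField K] (E : WeierstrassCurve K) (U : Set ℂ) (k : ℤ) :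
    Prop :=
  (∃ Λ, IsContinuation E U Λ) ∧ ∀ Λ, IsContinuation E U Λ → meromorphicOrderAt Λ 1 = k

/-- `L(E/K, s)` has a meromorphic continuation to `U`, and its order at `s = 1` is the rank of
`E(K)`. -/
def OrderEqRank {K : Type} [Field K] [NumberField K] (E : WeierstrassCurve K) (U : Set ℂ) : Prop :=
  ∃ r : ℕ, HasRank E r ∧ HasOrder E U r

open Classical in
/-- Q1: for every elliptic curve `E` over a number field `K` such that `L(E/K, s)` has an analytic
continuation `Λ` to `ℂ`, the order of vanishing of `Λ` at `s = 1` is the rank of `E(K)`. -/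
def Q1 : Prop :=
  ∀ (K : Type) [Field K] [NumberField K] (E : WeierstrassCurve K), E.IsElliptic →
    ∀ V : HeightOneSpectrum (𝓞 K) → WeierstrassCurve (𝓞 K), MinimalModels E V →
      ∀ Λ : ℂ → ℂ, Differentiable ℂ Λ → (∀ s : ℂ, 3 / 2 < s.re → Λ s = LSeries V s) →
        ∃ r : ℕ, analyticOrderAt Λ 1 = r ∧ Module.rank ℤ E.toAffine.Point = r

section Aux

open Pool.Agent.H341R2.EC Pool.Agent.R433.MD Pool.Agent.R333.BR
open Pool.Agent.H921R2.TatePole (nm two_le_nm)

section bridge
variable {K : Type} [Field K] [NumberField K]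

theorem isModel_iff (E : WeierstrassCurve K) (W : WeierstrassCurve (𝓞 K)) :
    (∃ C : WeierstrassCurve.VariableChange K, C • W.map (algebraMap (𝓞 K) K) = E) ↔
      IsModel E W := by
  constructor
  · rintro ⟨C, hC⟩
    exact ⟨C⁻¹, by rw [← hC, inv_smul_smul]⟩
  · rintro ⟨C, hC⟩
    exact ⟨C⁻¹, by rw [← hC, inv_smul_smul]⟩

theorem minimalModels_iff (E : WeierstrassCurve K)
    (V : HeightOneSpectrum (𝓞 K) → WeierstrassCurve (𝓞 K)) :
    MinimalModels E V ↔ ∀ v, IsMinAt E v (V v) := by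
  unfold MinimalModels IsMinAt
  simp only [isModel_iff]

theorem lseries_eq (V : HeightOneSpectrum (𝓞 K) → WeierstrassCurve (𝓞 K)) (s : ℂ) :
    LSeries V s = LL V s := by
  unfold LSeries LL
  refine tprod_congr fun v => ?_
  congr 1
  unfold lf trc dlt
  have h0 : ((nm v : ℕ) : ℂ) ≠ 0 := by
    have := two_le_nm v
    exact_mod_cast (by omega : nm v ≠ 0)
  have e1 : Nat.card {xy : (𝓞 K ⧸ v.asIdeal) × (𝓞 K ⧸ v.asIdeal) //
      ((V v).map (Ideal.Quotient.mk v.asIdeal)).toAffine.Equation xy.1 xy.2} =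
      aff (red v (V v)) := by
    unfold aff red
    refine Nat.card_congr (Equiv.subtypeEquivRight fun xy => ?_)
    rw [WeierstrassCurve.Affine.equation_iff]
  have e2 : ((nm v : ℕ) : ℂ) ^ (1 - 2 * s) = ((nm v : ℕ) : ℂ) * ((nm v : ℕ) : ℂ) ^ (-2 * s) := by
    rw [sub_eq_add_neg, Complex.cpow_add _ _ h0, Complex.cpow_one]
    congr 2
    ring
  have e3 : (Ideal.absNorm v.asIdeal : ℂ) = ((nm v : ℕ) : ℂ) := rfl
  rw [e1, e2, e3]
  push_cast
  split_ifs with h
  · ring
  · ring

theorem isContinuation_iff (E : WeierstrassCurve K) (U : Set ℂ) (Λ : ℂ → ℂ) :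
    IsContinuation E U Λ ↔ MeromorphicOn Λ U ∧
      ∃ V : HeightOneSpectrum (𝓞 K) → WeierstrassCurve (𝓞 K), (∀ v, IsMinAt E v (V v)) ∧
        ∀ s : ℂ, 3 / 2 < s.re → Λ s = LL V s := by
  unfold IsContinuation
  simp only [minimalModels_iff, lseries_eq]

end bridge

section rel
variable {K L : Type} [Field K] [NumberField K] [Field L] [NumberField L] [Algebra K L]
  [IsGalois K L] {ι : Type} [Fintype ι] [Nonempty ι] (Z : ι → Ext K)
  (f : ∀ i, (Z i).F →ₐ[K] L) (e : ι → ℤ) (m : ℕ)

theorem ranks (h : ∀ g : Gal(L/K), ∑ i, e i * fx (f i).fieldRange.fixingSubgroup g = m)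
    (E : WeierstrassCurve K) (rk : ι → ℕ)
    (hrk : ∀ i, HasRank (E.map (algebraMap K (Z i).F)) (rk i)) :
    ∃ rk0 : ℕ, HasRank E rk0 ∧ (m : ℤ) * rk0 = ∑ i, e i * rk i :=
  rank_rel E (fun i => (Z i).F) f e m h rk hrk

omit [Nonempty ι] in
theorem orders (hm : m ≠ 0)
    (h : ∀ g : Gal(L/K), ∑ i, e i * fx (f i).fieldRange.fixingSubgroup g = m)
    (E : WeierstrassCurve K) (hE : E.IsElliptic) {U : Set ℂ} (hU : Region U) (o : ι → ℤ)
    (ho : ∀ i, HasOrder (E.map (algebraMap K (Z i).F)) U (o i)) (hc : ∃ Λ, IsContinuation E U Λ) :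
    ∃ o0 : ℤ, HasOrder E U o0 ∧ (m : ℤ) * o0 = ∑ i, e i * o i := by
  have hm' : (m : ℤ) ≠ 0 := by exact_mod_cast hm
  choose hex hall using ho
  choose Λ hΛ using hex
  have hΛ' := fun i => (isContinuation_iff _ _ _).1 (hΛ i)
  choose VZ hVZ hL using fun i => (hΛ' i).2
  have key : ∀ Λ0, IsContinuation E U Λ0 → ∃ o0 : ℤ, meromorphicOrderAt Λ0 1 = o0 ∧
      (m : ℤ) * o0 = ∑ i, e i * o i := by
    intro Λ0 h0
    obtain ⟨h1, V0, hV0, h2⟩ := (isContinuation_iff _ _ _).1 h0
    exact ord_rel hU.1 hU.2.1 hU.2.2 Z f e m h E hE V0 hV0 VZ hVZ h1 h2 (fun i => (hΛ' i).1) hL o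
      fun i => hall i _ (hΛ i)
  obtain ⟨Λ0, hΛ0⟩ := hc
  obtain ⟨o0, h1, h2⟩ := key Λ0 hΛ0
  refine ⟨o0, ⟨⟨Λ0, hΛ0⟩, fun Λ1 hΛ1 => ?_⟩, h2⟩
  obtain ⟨o1, h3, h4⟩ := key Λ1 hΛ1
  rw [h3, mul_left_cancel₀ hm' (h4.trans h2.symm)]

theorem descends (hm : m ≠ 0)
    (h : ∀ g : Gal(L/K), ∑ i, e i * fx (f i).fieldRange.fixingSubgroup g = m)
    (E : WeierstrassCurve K) (hE : E.IsElliptic) {U : Set ℂ} (hU : Region U)
    (ho : ∀ i, OrderEqRank (E.map (algebraMap K (Z i).F)) U) (hc : ∃ Λ, IsContinuation E U Λ) :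
    OrderEqRank E U := by
  have hm' : (m : ℤ) ≠ 0 := by exact_mod_cast hm
  choose r hr hro using ho
  obtain ⟨r0, h1, h2⟩ := ranks Z f e m h E r hr
  obtain ⟨o0, h3, h4⟩ := orders Z f e m hm h E hE hU (fun i => (r i : ℤ)) hro hc
  have h5 := mul_left_cancel₀ hm' (h4.trans h2.symm)
  rw [h5] at h3
  exact ⟨r0, h1, h3⟩

omit [Nonempty ι] in
theorem continues (h : ∀ g : Gal(L/K), ∑ i, e i * fx (f i).fieldRange.fixingSubgroup g = (1 : ℕ))
    (E : WeierstrassCurve K) (hE : E.IsElliptic) {U : Set ℂ}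
    (ho : ∀ i, ∃ Λ, IsContinuation (E.map (algebraMap K (Z i).F)) U Λ) :
    ∃ Λ, IsContinuation E U Λ := by
  choose Λ hΛ using ho
  have hΛ' := fun i => (isContinuation_iff _ _ _).1 (hΛ i)
  choose VZ hVZ hL using fun i => (hΛ' i).2
  obtain ⟨V0, Λ0, h1, h2, h3⟩ := cont_rel Z f e h E hE VZ hVZ (fun i => (hΛ' i).1) hL
  exact ⟨Λ0, (isContinuation_iff _ _ _).2 ⟨h2, V0, h1, h3⟩⟩

end rel

/-- the cyclic case -/
theorem cyclic (K L : Type) [Field K] [NumberField K] [Field L] [NumberField L] [Algebra K L]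
    [IsGalois K L] (E : WeierstrassCurve K) (hE : E.IsElliptic) {U : Set ℂ} (hU : Region U)
    (hF : ∀ F : IntermediateField K L, IsCyclic F.fixingSubgroup →
      OrderEqRank (E.map (algebraMap K F)) U) (hc : ∃ Λ, IsContinuation E U Λ) :
    OrderEqRank E U := by
  classical
  obtain ⟨m, S, n, hm0, -, hS, hsum⟩ := gal_unit
    {F : IntermediateField K L | IsCyclic F.fixingSubgroup}
    (by
      intro F hF F' _
      have hle : (F ⊔ F').fixingSubgroup ≤ F.fixingSubgroup := by
        rw [IntermediateField.fixingSubgroup_sup]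
        exact inf_le_left
      have hF' : IsCyclic F.fixingSubgroup := hF
      exact isCyclic_of_injective (Subgroup.inclusion hle) (Subgroup.inclusion_injective hle))
    (by
      intro F hF σ
      have e : (F.map (σ : L →ₐ[K] L)).fixingSubgroup =
          F.fixingSubgroup.map (MulAut.conj σ).toMonoidHom := IsGalois.map_fixingSubgroup F σ
      rw [Set.mem_ofPred_eq, e]
      have hF' : IsCyclic F.fixingSubgroup := hF
      let e' := F.fixingSubgroup.equivMapOfInjective (MulAut.conj σ).toMonoidHom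
        (MulAut.conj σ).injective
      exact isCyclic_of_surjective e'.toMonoidHom e'.surjective) ∅
    (by
      intro g
      have e : (IntermediateField.fixedField (Subgroup.zpowers g)).fixingSubgroup =
        Subgroup.zpowers g := IntermediateField.fixingSubgroup_fixedField _
      refine ⟨IntermediateField.fixedField (Subgroup.zpowers g), ?_, ?_⟩
      · rw [Set.mem_ofPred_eq, e]
        infer_instance
      · have h1 := fx_eq_emb (IntermediateField.fixedField (Subgroup.zpowers g)) g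
        intro h
        rw [h, e, fx, Nat.cast_zero, Nat.cast_eq_zero, Nat.card_eq_zero] at h1
        rcases h1 with h1 | h1
        · refine h1.false ⟨((1 : Gal(L/K)) : Gal(L/K) ⧸ Subgroup.zpowers g), ?_⟩
          change ((g * 1 : Gal(L/K)) : Gal(L/K) ⧸ Subgroup.zpowers g) = _
          rw [QuotientGroup.eq, mul_one, mul_one]
          exact Subgroup.inv_mem _ (Subgroup.mem_zpowers g)
        · exact h1.not_finite inferInstance)
    (by
      intro g p hp
      exact absurd hp (Set.notMem_empty p))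
  have hrel : ∀ g : Gal(L/K), ∑ i : S, n i.1 * fx (i.1.val).fieldRange.fixingSubgroup g = m := by
    intro g
    rw [← hsum g, ← Finset.sum_coe_sort S (fun F => n F * fx F.fixingSubgroup g)]
    refine Finset.sum_congr rfl fun i _ => ?_
    rw [IntermediateField.fieldRange_val]
  have hne : Nonempty S := by
    by_contra h
    rw [not_nonempty_iff] at h
    have h1 := hrel 1
    rw [Finset.univ_eq_empty, Finset.sum_empty] at h1
    exact hm0 (by exact_mod_cast h1.symm)
  exact descends (fun i : S => (⟨i.1⟩ : Ext K)) (fun i => i.1.val) (fun i => n i.1) m hm0 hrel E hE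
    hU (fun i => hF i.1 (hS i.1 i.2)) hc

theorem q1_of {K : Type} [Field K] [NumberField K] {E : WeierstrassCurve K}
    (h : OrderEqRank E Set.univ) {V : HeightOneSpectrum (𝓞 K) → WeierstrassCurve (𝓞 K)}
    (hV : MinimalModels E V) {Λ : ℂ → ℂ} (hΛ : Differentiable ℂ Λ)
    (hL : ∀ s : ℂ, 3 / 2 < s.re → Λ s = LSeries V s) :
    ∃ r : ℕ, analyticOrderAt Λ 1 = r ∧ HasRank E r := by
  obtain ⟨r, hr, -, h1⟩ := h
  have h2 := h1 Λ ⟨fun z _ => (hΛ.analyticAt z).meromorphicAt, V, hV, hL⟩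
  refine ⟨r, ?_, hr⟩
  rw [(hΛ.analyticAt 1).meromorphicOrderAt_eq] at h2
  revert h2
  cases hk : analyticOrderAt Λ 1 with
  | top => intro h2; exact absurd h2 (by simp)
  | coe k =>
    intro h2
    have h3 : ((k : ℤ) : WithTop ℤ) = ((r : ℤ) : WithTop ℤ) := h2
    have h4 : (k : ℤ) = (r : ℤ) := WithTop.coe_injective h3
    have h5 : k = r := by exact_mod_cast h4
    rw [h5]

end Aux

/-- **Descent of the equality of the order at `s = 1` and the rank from fields of large degree.** -/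
theorem result :
    (∀ (K : Type) [Field K] [NumberField K] (m n : ℕ), 0 < m → 0 < n →
      ∃ (r : ℕ) (F : Fin r → Type) (_ : ∀ i, Field (F i)) (_ : ∀ i, NumberField (F i))
        (_ : ∀ i, Algebra K (F i)) (e : Fin r → ℤ),
        (∀ i, (m ∣ Module.finrank K (F i) ∧ Module.finrank K (F i) ∣ m ^ 2) ∨
          (n ∣ Module.finrank K (F i) ∧ Module.finrank K (F i) ∣ n ^ 2)) ∧
        ∀ E : WeierstrassCurve K, E.IsElliptic →
          (∀ rk : Fin r → ℕ, (∀ i, HasRank (E.map (algebraMap K (F i))) (rk i)) →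
            ∃ rk₀ : ℕ, HasRank E rk₀ ∧ (Nat.gcd m n : ℤ) * rk₀ = ∑ i, e i * rk i) ∧
          ∀ U : Set ℂ, Region U →
            (∀ o : Fin r → ℤ, (∀ i, HasOrder (E.map (algebraMap K (F i))) U (o i)) →
              (∃ Λ, IsContinuation E U Λ) →
              ∃ o₀ : ℤ, HasOrder E U o₀ ∧ (Nat.gcd m n : ℤ) * o₀ = ∑ i, e i * o i) ∧
            ((∀ i, OrderEqRank (E.map (algebraMap K (F i))) U) →
              (Nat.gcd m n = 1 ∨ ∃ Λ, IsContinuation E U Λ) → OrderEqRank E U)) ∧
    (∀ (K L : Type) [Field K] [NumberField K] [Field L] [NumberField L] [Algebra K L]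
      [IsGalois K L] (E : WeierstrassCurve K), E.IsElliptic → ∀ U : Set ℂ, Region U →
        (∃ Λ, IsContinuation E U Λ) →
        (∀ F : IntermediateField K L, IsCyclic F.fixingSubgroup →
          OrderEqRank (E.map (algebraMap K F)) U) → OrderEqRank E U) ∧
    (∀ n : ℕ, 0 < n →
      (∀ (F : Type) [Field F] [NumberField F], n ∣ Module.finrank ℚ F →
        ∀ E : WeierstrassCurve F, E.IsElliptic → OrderEqRank E Set.univ) → Q1) := by
  have main : ∀ (K : Type) [Field K] [NumberField K] (m n : ℕ), 0 < m → 0 < n →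
      ∃ (r : ℕ) (F : Fin r → Type) (_ : ∀ i, Field (F i)) (_ : ∀ i, NumberField (F i))
        (_ : ∀ i, Algebra K (F i)) (e : Fin r → ℤ),
        (∀ i, (m ∣ Module.finrank K (F i) ∧ Module.finrank K (F i) ∣ m ^ 2) ∨
          (n ∣ Module.finrank K (F i) ∧ Module.finrank K (F i) ∣ n ^ 2)) ∧
        ∀ E : WeierstrassCurve K, E.IsElliptic →
          (∀ rk : Fin r → ℕ, (∀ i, HasRank (E.map (algebraMap K (F i))) (rk i)) →
            ∃ rk₀ : ℕ, HasRank E rk₀ ∧ (Nat.gcd m n : ℤ) * rk₀ = ∑ i, e i * rk i) ∧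
          ∀ U : Set ℂ, Region U →
            (∀ o : Fin r → ℤ, (∀ i, HasOrder (E.map (algebraMap K (F i))) U (o i)) →
              (∃ Λ, IsContinuation E U Λ) →
              ∃ o₀ : ℤ, HasOrder E U o₀ ∧ (Nat.gcd m n : ℤ) * o₀ = ∑ i, e i * o i) ∧
            ((∀ i, OrderEqRank (E.map (algebraMap K (F i))) U) →
              (Nat.gcd m n = 1 ∨ ∃ Λ, IsContinuation E U Λ) → OrderEqRank E U) := by
    intro K _ _ m n hm hn
    obtain ⟨r, Z, e, hne, hd, L, i1, i2, i3, i4, f, hf⟩ :=
      Pool.Agent.R333.BR.exists_fam K hm hn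
    have hg : Nat.gcd m n ≠ 0 := (Nat.gcd_pos_of_pos_left n hm).ne'
    refine ⟨r, fun i => (Z i).F, fun i => (Z i).field, fun i => (Z i).nf, fun i => (Z i).alg, e, hd,
      fun E hE => ⟨fun rk hrk => ranks Z f e _ hf E rk hrk, fun U hU => ⟨fun o ho hc =>
        orders Z f e _ hg hf E hE hU o ho hc, fun ho hc => ?_⟩⟩⟩
    refine descends Z f e _ hg hf E hE hU ho ?_
    rcases hc with hc | hc
    · rw [hc] at hf
      exact continues Z f e hf E hE fun i => by
        obtain ⟨r, -, h, -⟩ := ho i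
        exact h
    · exact hc
  refine ⟨main, fun K L _ _ _ _ _ _ E hE U hU hc hF => cyclic K L E hE hU hF hc, ?_⟩
  intro n hn H K _ _ E hE V hV Λ hΛ hL
  obtain ⟨r, F, i1, i2, i3, e, hd, h⟩ := main K n n hn hn
  have hU : Region Set.univ := ⟨isPreconnected_univ, fun _ _ => trivial, trivial⟩
  refine q1_of (((h E hE).2 Set.univ hU).2 (fun i => ?_)
    (Or.inr ⟨Λ, fun z _ => (hΛ.analyticAt z).meromorphicAt, V, hV, hL⟩)) hV hΛ hL
  refine H (F i) ?_ _ inferInstance
  rw [← Module.finrank_mul_finrank ℚ K (F i)]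
  have h1 : n ∣ Module.finrank K (F i) := by
    rcases hd i with h1 | h1
    · exact h1.1
    · exact h1.1
  exact Dvd.dvd.mul_left h1 _

end Pool.Agent.Results.MP_cd906c_nt.RankDegreeDescent
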